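import Pool.Agent.Y800.Defs

/-! Definitions: irreducible under a subgroup, mild at a prime. -/

set_option autoImplicit false

namespace Pool.Agent.X289.SI

open Matrix Pool.Agent.Y800

variable {k : Type} [Field k] {n : ℕ}

/-- The subspace `W` is stable under `ρ g` for all `g ∈ H`. -/
def StabOn (ρ : GQ →* GL (Fin n) k) (H : Subgroup GQ) (W : Submodule k (Fin n → k)) : Prop :=
  ∀ g ∈ H, ∀ w ∈ W, (ρ g : Matrix (Fin n) (Fin n) k).mulVec w ∈ W

/-- The subspace `W` is an irreducible subrepresentation of the restriction of `ρ` to `H`: it is nonzero, stable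
under `H`, and has no stable subspaces besides `0` and itself. -/
def IrrOn (ρ : GQ →* GL (Fin n) k) (H : Subgroup GQ) (W : Submodule k (Fin n → k)) : Prop :=
  W ≠ ⊥ ∧ StabOn ρ H W ∧ ∀ W' ≤ W, StabOn ρ H W' → W' = ⊥ ∨ W' = W

/-- `ρ` is mild at `p`: for every open subgroup `H`, the inertia groups at `p` commute with all matrices that
commute with `ρ(H)`. -/
def Mild (ρ : GQ →* GL (Fin n) k) (p : ℕ) : Prop :=
  ∀ P : Ideal ZBar, P.IsMaximal → (p : ZBar) ∈ P → ∀ τ : GQ, InInertia P τ →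
    ∀ H : Subgroup GQ, IsOpen (H : Set GQ) → ∀ T : Matrix (Fin n) (Fin n) k,
      (∀ h ∈ H, T * (ρ h : Matrix (Fin n) (Fin n) k) = (ρ h : Matrix (Fin n) (Fin n) k) * T) →
        T * (ρ τ : Matrix (Fin n) (Fin n) k) = (ρ τ : Matrix (Fin n) (Fin n) k) * T

/-- The inertia groups at `p` act unipotently in `ρ`. -/
def UnipotentInertia (ρ : GQ →* GL (Fin n) k) (p : ℕ) : Prop :=
  ∀ P : Ideal ZBar, P.IsMaximal → (p : ZBar) ∈ P → ∀ τ : GQ, InInertia P τ →
    ((ρ τ : Matrix (Fin n) (Fin n) k) - 1) ^ n = 0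

end Pool.Agent.X289.SI
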