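import Pool.Agent.X289.SI.Ind
import Pool.Agent.X289.SI.Defs
import Pool.Agent.X289.TF.Clifford
import Pool.Agent.Y800.HM

/-! The uniform field over which irreducible implies strongly irreducible. -/

set_option autoImplicit false
set_option linter.all false

namespace Pool.Agent.X289.SI

open Matrix Module NumberField UniqueFactorizationMonoid
open Pool.Agent.Y800 Pool.Agent.Y800.HM

section minkowski

/-- **Minkowski**: no everywhere unramified extension of `ℚ`. -/
theorem minkowski_top (H : Subgroup GQ) (hn : H.Normal) (ho : IsOpen (H : Set GQ))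
    (hI : ∀ p : ℕ, p.Prime → ∀ P : Ideal ZBar, P.IsMaximal → (p : ZBar) ∈ P →
      ∀ τ : GQ, InInertia P τ → τ ∈ H) : H = ⊤ := by
  have hclosed : IsClosed (H : Set GQ) := Subgroup.isClosed_of_isOpen _ ho
  have hfix : (IntermediateField.fixedField H).fixingSubgroup = H :=
    InfiniteGalois.fixingSubgroup_fixedField ⟨H, hclosed⟩
  set M := IntermediateField.fixedField H with hM
  have hfd : FiniteDimensional ℚ M :=
    (InfiniteGalois.isOpen_iff_finite M).1 (by rw [hfix]; exact ho)
  have hgal : IsGalois ℚ M :=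
    (InfiniteGalois.normal_iff_isGalois M).1 (by rw [hfix]; exact hn)
  have hnf : NumberField M := ⟨⟩
  have h : ∀ p : ℕ, p.Prime → ∀ P : Ideal (𝓞 M), P.IsMaximal → (p : 𝓞 M) ∈ P →
      ∀ γ : M ≃ₐ[ℚ] M, γ ∈ P.inertia (M ≃ₐ[ℚ] M) → γ = 1 := fun p hp =>
    inert_triv H M hfix p (hI p hp)
  have hG1 : IsGaloisGroup (M ≃ₐ[ℚ] M) ℤ (𝓞 M) :=
    IsGaloisGroup.of_isFractionRing (M ≃ₐ[ℚ] M) ℤ (𝓞 M) ℚ M
  have hD : differentIdeal ℤ (𝓞 M) = ⊤ := by
    by_contra hne
    obtain ⟨P, hPm, hle⟩ := Ideal.exists_le_maximal _ hne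
    obtain ⟨p, hp, hpP⟩ := exists_prime_mem M P hPm
    have hPp : P.IsPrime := hPm.isPrime
    have hP0 : P ≠ ⊥ := Ideal.IsMaximal.ne_bot_of_isIntegral_int P
    have h1 : P ∣ differentIdeal ℤ (𝓞 M) := Ideal.dvd_iff_le.2 hle
    refine (not_dvd_differentIdeal_iff (A := ℤ) (B := 𝓞 M) (P := P)).2 ?_ h1
    have hum : (P.under ℤ).IsMaximal := Ideal.IsMaximal.under ℤ P
    have e1 : Nat.card (P.inertia (M ≃ₐ[ℚ] M)) = P.ramificationIdx ℤ := by
      rw [Ideal.card_inertia_eq_ramificationIdxIn (P.under ℤ),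
        Ideal.ramificationIdxIn_eq_ramificationIdx (P.under ℤ) P (M ≃ₐ[ℚ] M)]
    have e2 : Nat.card (P.inertia (M ≃ₐ[ℚ] M)) = 1 := by
      have : P.inertia (M ≃ₐ[ℚ] M) = ⊥ := by
        rw [eq_bot_iff]
        intro γ hγ
        rw [Subgroup.mem_bot]
        exact h p hp P hPm hpP γ hγ
      rw [this]
      simp
    rw [← Ideal.ramificationIdx_eq_one_iff, ← e1, e2]
  have h2 := absNorm_differentIdeal M (𝓞 M)
  rw [hD, Ideal.absNorm_top] at h2
  have h3 : ¬ 1 < finrank ℚ M := by
    intro h4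
    have h5 := NumberField.abs_discr_gt_two h4
    rw [Int.abs_eq_natAbs, ← h2] at h5
    norm_num at h5
  have h6 : finrank ℚ M = H.index := by
    rw [IntermediateField.finrank_eq_fixingSubgroup_index, hfix]
  have h7 : 0 < finrank ℚ M := finrank_pos
  exact Subgroup.index_eq_one.1 (by omega)

end minkowski

section group

variable {G : Type} [Group G]

theorem core_index (H : Subgroup G) [H.FiniteIndex] : H.normalCore.index ≤ H.index.factorial := by
  have h1 : H.normalCore = (MulAction.toPermHom G (G ⧸ H)).ker := Subgroup.normalCore_eq_ker H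
  haveI : Finite (G ⧸ H) := Subgroup.finite_quotient_of_finiteIndex
  rw [h1, Subgroup.index_ker]
  calc Nat.card (MulAction.toPermHom G (G ⧸ H)).range ≤ Nat.card (Equiv.Perm (G ⧸ H)) :=
        Nat.card_le_card_of_injective _ Subtype.val_injective
    _ = (Nat.card (G ⧸ H)).factorial := Nat.card_perm

variable {E : Type} [Field E] {V : Type} [AddCommGroup V] [Module E V]

theorem triv_conj {r : G →* Module.End E V} {N : Subgroup G} [N.Normal] {τ : G} (hτ : Triv r N τ) (g : G) :
    Triv r N (g * τ * g⁻¹) := by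
  intro T hT
  have h1 := hτ _ (conj_com hT g⁻¹)
  rw [inv_inv] at h1
  calc T * r (g * τ * g⁻¹) = r g * (r g⁻¹ * T * r g * r τ) * r g⁻¹ := by
        rw [map_mul, map_mul]
        simp only [← mul_assoc]
        rw [rinv, one_mul]
    _ = r g * (r τ * (r g⁻¹ * T * r g)) * r g⁻¹ := by rw [h1]
    _ = r (g * τ * g⁻¹) * T := by
        rw [map_mul, map_mul]
        simp only [mul_assoc]
        rw [rinv, mul_one]

end group

section gal

variable {k : Type} [Field k] {n : ℕ}

theorem end_apply (ρ : GQ →* GL (Fin n) k) (g : GQ) (v : Fin n → k) :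
    Pool.Agent.X320.DS.toEnd ρ g v = (ρ g : Matrix (Fin n) (Fin n) k).mulVec v := rfl

theorem irr_iff (ρ : GQ →* GL (Fin n) k) (H : Subgroup GQ) (W : Submodule k (Fin n → k)) :
    IrrOn ρ H W ↔ Irr (Pool.Agent.X320.DS.toEnd ρ) H W := Iff.rfl

theorem ss_of (ρ : GQ →* GL (Fin n) k) (hρ : IsSemisimple ρ) (N : Subgroup GQ) [N.Normal] :
    SS (Pool.Agent.X320.DS.toEnd ρ) N := by
  have h1 := Pool.Agent.X289.TF.clifford N (ρ := ρ) hρ
  intro W hW
  obtain ⟨W', hW', hc⟩ := h1 W fun g w hw => hW g.1 g.2 w hw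
  exact ⟨W', fun g hg w hw => hW' ⟨g, hg⟩ w hw, hc⟩

theorem open_core (H : Subgroup GQ) (ho : IsOpen (H : Set GQ)) : IsOpen (H.normalCore : Set GQ) ∧ H.FiniteIndex := by
  haveI : Finite (GQ ⧸ H) := Subgroup.quotient_finite_of_isOpen H ho
  haveI : H.FiniteIndex := Subgroup.finiteIndex_of_finite_quotient
  exact ⟨Subgroup.isOpen_of_isClosed_of_finiteIndex _ (H.normalCore_isClosed (H.isClosed_of_isOpen ho)), this⟩

theorem fin_index (H : Subgroup GQ) (ho : IsOpen (H : Set GQ)) : H.FiniteIndex := (open_core H ho).2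

theorem pow_comm_aux {X T S : Matrix (Fin n) (Fin n) k} (h1 : X * T = T * X + S) (h2 : X * S = S * X) (m : ℕ) :
    X ^ (m + 1) * T = T * X ^ (m + 1) + ((m + 1 : ℕ) : k) • (S * X ^ m) := by
  induction m with
  | zero => simpa using h1
  | succ m ih =>
    have h3 : X * (S * X ^ m) = S * X ^ (m + 1) := by rw [← mul_assoc, h2, mul_assoc, ← pow_succ']
    rw [pow_succ' X (m + 1), mul_assoc, ih, mul_add, mul_smul_comm, h3, ← mul_assoc, h1, add_mul, mul_assoc,
      ← pow_succ' X (m + 1), Nat.cast_succ (m + 1), add_smul, one_smul]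
    abel

theorem comm_aux [CharZero k] {X : Matrix (Fin n) (Fin n) k} (hX : IsUnit X) (m : ℕ) : ∀ (j : ℕ)
    (T : Matrix (Fin n) (Fin n) k), X ^ (m + 1) * T = T * X ^ (m + 1) →
    (fun A : Matrix (Fin n) (Fin n) k => X * A - A * X)^[j] T = 0 → X * T - T * X = 0
  | 0, T, _, h => by
    have : T = 0 := h
    rw [this, mul_zero, zero_mul, sub_zero]
  | j + 1, T, hT, h => by
    have h1 : X * (X * T - T * X) - (X * T - T * X) * X = 0 := by
      refine comm_aux hX m j (X * T - T * X) ?_ ?_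
      · have e1 : X ^ (m + 1) * (X * T) = X * T * X ^ (m + 1) := by
          rw [← mul_assoc, ← pow_succ, pow_succ', mul_assoc, hT, mul_assoc]
        have e2 : X ^ (m + 1) * (T * X) = T * X * X ^ (m + 1) := by
          rw [← mul_assoc, hT, mul_assoc, mul_assoc, ← pow_succ, ← pow_succ']
        rw [mul_sub, sub_mul, e1, e2]
      · rwa [Function.iterate_succ_apply] at h
    have h2 := pow_comm_aux (X := X) (T := T) (S := X * T - T * X) (by abel) (sub_eq_zero.1 h1) m
    rw [hT] at h2
    have h3 : ((m + 1 : ℕ) : k) • ((X * T - T * X) * X ^ m) = 0 := by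
      have := h2.symm
      rwa [add_eq_left] at this
    have h4 : (X * T - T * X) * X ^ m = 0 :=
      (smul_eq_zero.1 h3).resolve_left (Nat.cast_ne_zero.2 (Nat.succ_ne_zero m))
    exact ((hX.pow m).mul_left_eq_zero).1 h4

/-- unipotent inertia is mild -/
theorem mild_of_unipotent [CharZero k] (ρ : GQ →* GL (Fin n) k) (p : ℕ) (h : UnipotentInertia ρ p) : Mild ρ p := by
  intro P hP hpP τ hτ H hH T hT
  have hX := h P hP hpP τ hτ
  set X : Matrix (Fin n) (Fin n) k := (ρ τ : Matrix (Fin n) (Fin n) k) with hXdef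
  have hXu : IsUnit X := (ρ τ).isUnit
  haveI := fin_index H hH
  obtain ⟨m, hmem⟩ : ∃ m : ℕ, τ ^ (m + 1) ∈ H := by
    haveI : H.normalCore.FiniteIndex := inferInstance
    obtain ⟨m, hm⟩ := Nat.exists_eq_succ_of_ne_zero (Subgroup.FiniteIndex.index_ne_zero (H := H.normalCore))
    refine ⟨m, H.normalCore_le ?_⟩
    have := Subgroup.pow_index_mem H.normalCore τ
    rwa [hm] at this
  have hXm : X ^ (m + 1) * T = T * X ^ (m + 1) := by
    have := hT _ hmem
    rw [map_pow, Units.val_pow_eq_pow_val] at this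
    exact this.symm
  -- left and right multiplication
  let L : Module.End k (Matrix (Fin n) (Fin n) k) := LinearMap.mulLeft k X
  let R : Module.End k (Matrix (Fin n) (Fin n) k) := LinearMap.mulRight k X
  have hLR : Commute (L - 1) (R - 1) := by
    refine Commute.sub_left (Commute.sub_right ?_ (Commute.one_right L)) (Commute.one_left (R - 1))
    show L * R = R * L
    ext A : 1
    show X * (A * X) = X * A * X
    rw [mul_assoc]
  have hL : IsNilpotent (L - 1) := by
    refine ⟨n, ?_⟩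
    have e : L - 1 = LinearMap.mulLeft k (X - 1) := by
      ext A : 1
      show X * A - A = (X - 1) * A
      rw [sub_mul, one_mul]
    rw [e, LinearMap.pow_mulLeft, hX, LinearMap.mulLeft_zero_eq_zero]
  have hR : IsNilpotent (R - 1) := by
    refine ⟨n, ?_⟩
    have e : R - 1 = LinearMap.mulRight k (X - 1) := by
      ext A : 1
      show A * X - A = A * (X - 1)
      rw [mul_sub, mul_one]
    rw [e, LinearMap.pow_mulRight, hX, LinearMap.mulRight_zero_eq_zero]
  obtain ⟨j, hj⟩ := hLR.isNilpotent_sub hL hR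
  have hD : ∀ (j : ℕ) (A : Matrix (Fin n) (Fin n) k),
      ((L - 1 - (R - 1)) ^ j) A = (fun A : Matrix (Fin n) (Fin n) k => X * A - A * X)^[j] A := by
    intro j
    induction j with
    | zero => intro A; rfl
    | succ j ih =>
      intro A
      rw [pow_succ, Function.iterate_succ_apply, ← ih]
      show ((L - 1 - (R - 1)) ^ j) ((L - 1 - (R - 1)) A) = _
      congr 1
      show X * A - A - (A * X - A) = X * A - A * X
      abel
  have h0 : (fun A : Matrix (Fin n) (Fin n) k => X * A - A * X)^[j] T = 0 := by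
    rw [← hD, hj]
    rfl
  exact (sub_eq_zero.1 (comm_aux hXu m j T hXm h0)).symm

end gal

end Pool.Agent.X289.SI
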