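import Pool.Agent.X289.SI.Step

/-! Induction: a subgroup of bounded index below which irreducible subspaces stay irreducible. -/

set_option autoImplicit false
set_option linter.all false

namespace Pool.Agent.X289.SI

open Module

section

variable {E : Type} [Field E] {V : Type} [AddCommGroup V] [Module E V] {G : Type} [Group G]

/-- a stable subspace as a representation of the subgroup -/
noncomputable def sub (r : G →* Module.End E V) (G₁ : Subgroup G) (V₁ : Submodule E V) (h : Stab r G₁ V₁) :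
    G₁ →* Module.End E V₁ where
  toFun g := (r g.1).restrict (fun v hv => h g.1 g.2 v hv)
  map_one' := by
    ext v
    show r 1 v.1 = v.1
    rw [map_one]
    rfl
  map_mul' a b := by
    ext v
    show r (a.1 * b.1) v.1 = r a.1 (r b.1 v.1)
    rw [map_mul]
    rfl

theorem sub_apply {r : G →* Module.End E V} {G₁ : Subgroup G} {V₁ : Submodule E V} (h : Stab r G₁ V₁) (g : G₁)
    (v : V₁) : (sub r G₁ V₁ h g v : V) = r g.1 v.1 := rfl

theorem irr_map {V' : Type} [AddCommGroup V'] [Module E V'] {G' : Type} [Group G'] {r : G →* Module.End E V}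
    {r' : G' →* Module.End E V'} {H : Subgroup G} {H' : Subgroup G'} (p : V →ₗ[E] V')
    (h1 : ∀ g ∈ H, ∃ g' ∈ H', ∀ v, p (r g v) = r' g' (p v))
    (h2 : ∀ g' ∈ H', ∃ g ∈ H, ∀ v, p (r g v) = r' g' (p v))
    {W : Submodule E V} (hinj : ∀ w ∈ W, p w = 0 → w = 0) (hW : Stab r H W) :
    Irr r H W ↔ Irr r' H' (W.map p) := by
  have hst : ∀ W'' : Submodule E V, Stab r H W'' → Stab r' H' (W''.map p) := by
    rintro W'' hs g' hg' _ ⟨v, hv, rfl⟩
    obtain ⟨g, hg, hgg⟩ := h2 g' hg'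
    exact ⟨r g v, hs g hg v hv, hgg v⟩
  constructor
  · rintro ⟨h0, -, h3⟩
    refine ⟨?_, hst W hW, fun W'' hle hs => ?_⟩
    · obtain ⟨x, hx, hx0⟩ := (Submodule.ne_bot_iff _).1 h0
      rw [Submodule.ne_bot_iff]
      exact ⟨p x, ⟨x, hx, rfl⟩, fun h => hx0 (hinj x hx h)⟩
    · have h5 : Stab r H (W ⊓ W''.comap p) := by
        intro g hg v hv
        obtain ⟨g', hg', hgg⟩ := h1 g hg
        refine ⟨hW g hg v hv.1, ?_⟩
        show p (r g v) ∈ W''
        rw [hgg]
        exact hs g' hg' _ hv.2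
      rcases h3 (W ⊓ W''.comap p) inf_le_left h5 with h4 | h4
      · left
        rw [Submodule.eq_bot_iff]
        intro x hx
        obtain ⟨w, hw, rfl⟩ := hle hx
        have : w ∈ W ⊓ W''.comap p := ⟨hw, hx⟩
        rw [h4, Submodule.mem_bot] at this
        rw [this, map_zero]
      · right
        refine le_antisymm hle ?_
        rintro _ ⟨w, hw, rfl⟩
        rw [← h4] at hw
        exact hw.2
  · rintro ⟨h0, -, h3⟩
    refine ⟨?_, hW, fun W'' hle hs => ?_⟩
    · rintro rfl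
      rw [Submodule.map_bot] at h0
      exact h0 rfl
    · rcases h3 (W''.map p) (Submodule.map_mono hle) (hst _ hs) with h4 | h4
      · left
        rw [Submodule.eq_bot_iff]
        intro x hx
        have : p x ∈ W''.map p := ⟨x, hx, rfl⟩
        rw [h4, Submodule.mem_bot] at this
        exact hinj x (hle hx) this
      · right
        refine le_antisymm hle fun w hw => ?_
        have : p w ∈ W''.map p := by
          rw [h4]
          exact ⟨w, hw, rfl⟩
        obtain ⟨w', hw', he⟩ := this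
        have h5 : w - w' = 0 := hinj _ (W.sub_mem hw (hle hw')) (by
          rw [map_sub, he, sub_self])
        rw [sub_eq_zero.1 h5]
        exact hw'

/-- one of two complementary projections -/
theorem irr_proj {r : G →* Module.End E V} {G₁ : Subgroup G} {V₁ V₂ : Submodule E V} (h1 : Stab r G₁ V₁)
    (h2 : Stab r G₁ V₂) (hc : IsCompl V₁ V₂) {N H : Subgroup G} (hNH : N ≤ H) (hH : H ≤ G₁)
    (hI : ∀ W, Irr (sub r G₁ V₁ h1) (H.subgroupOf G₁) W → Irr (sub r G₁ V₁ h1) (N.subgroupOf G₁) W)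
    {W : Submodule E V} (hW : Irr r H W) (hp : ∃ w ∈ W, V₁.projection V₂ hc w ≠ 0) : Irr r N W := by
  let p : V →ₗ[E] V₁ := V₁.projectionOnto V₂ hc
  have hpv : ∀ v, (p v : V) = V₁.projection V₂ hc v := fun v => rfl
  have hcom := proj_com h1 h2 hc
  have hcom' : ∀ g (hg : g ∈ G₁), ∀ v, p (r g v) = sub r G₁ V₁ h1 ⟨g, hg⟩ (p v) := by
    intro g hg v
    apply Subtype.ext
    rw [sub_apply, hpv, hpv]
    exact LinearMap.congr_fun (hcom g hg) v
  have hinj : ∀ w ∈ W, p w = 0 → w = 0 := by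
    rcases hW.2.2 (W ⊓ LinearMap.ker p) inf_le_left (by
      intro g hg v hv
      refine ⟨hW.2.1 g hg v hv.1, ?_⟩
      show p (r g v) = 0
      rw [hcom' g (hH hg), show p v = 0 from hv.2, map_zero]) with h4 | h4
    · intro w hw hpw
      have : w ∈ W ⊓ LinearMap.ker p := ⟨hw, hpw⟩
      rwa [h4, Submodule.mem_bot] at this
    · exfalso
      obtain ⟨w, hw, hne⟩ := hp
      rw [← h4] at hw
      apply hne
      rw [← hpv, show p w = 0 from hw.2]
      rfl
  have key : ∀ K : Subgroup G, K ≤ G₁ → Stab r K W → (Irr r K W ↔ Irr (sub r G₁ V₁ h1) (K.subgroupOf G₁) (W.map p)) := by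
    intro K hK hs
    refine irr_map p (fun g hg => ⟨⟨g, hK hg⟩, Subgroup.mem_subgroupOf.2 hg, hcom' g (hK hg)⟩) (fun g hg => ?_)
      hinj hs
    exact ⟨g.1, Subgroup.mem_subgroupOf.1 hg, hcom' g.1 g.2⟩
  exact (key N (hNH.trans hH) fun g hg => hW.2.1 g (hNH hg)).2 (hI _ ((key H hH hW.2.1).1 hW))

theorem ss_sub {r : G →* Module.End E V} {G₁ N : Subgroup G} (hNG : N ≤ G₁) {V₁ : Submodule E V}
    (h1 : Stab r G₁ V₁) (hN : SS r N) : SS (sub r G₁ V₁ h1) (N.subgroupOf G₁) := by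
  intro W hW
  obtain ⟨W', hW', hc⟩ := hN (W.map V₁.subtype) (by
    rintro g hg _ ⟨v, hv, rfl⟩
    exact ⟨sub r G₁ V₁ h1 ⟨g, hNG hg⟩ v, hW _ (Subgroup.mem_subgroupOf.2 hg) v hv, rfl⟩)
  refine ⟨W'.comap V₁.subtype, fun g hg v hv => ?_, ?_, ?_⟩
  · exact hW' g.1 (Subgroup.mem_subgroupOf.1 hg) _ hv
  · rw [Submodule.disjoint_def]
    intro v h3 h4
    have := (Submodule.disjoint_def.1 hc.disjoint) v.1 ⟨v, h3, rfl⟩ h4
    exact Subtype.ext this
  · rw [codisjoint_iff, eq_top_iff]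
    intro v _
    have : v.1 ∈ W.map V₁.subtype ⊔ W' := by
      rw [hc.sup_eq_top]
      trivial
    obtain ⟨_, ⟨a, ha, rfl⟩, b, hb, hab⟩ := Submodule.mem_sup.1 this
    have hb' : b ∈ V₁ := by
      have : b = v.1 - a.1 := by
        rw [← hab]
        show b = a.1 + b - a.1
        abel
      rw [this]
      exact V₁.sub_mem v.2 a.2
    exact Submodule.mem_sup.2 ⟨a, ha, ⟨b, hb'⟩, hb, Subtype.ext hab⟩

theorem triv_sub {r : G →* Module.End E V} {G₁ N : Subgroup G} (hNG : N ≤ G₁) {V₁ V₂ : Submodule E V}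
    (h1 : Stab r G₁ V₁) (h2 : Stab r G₁ V₂) (hc : IsCompl V₁ V₂) {g : G} (hg : g ∈ G₁) (ht : Triv r N g) :
    Triv (sub r G₁ V₁ h1) (N.subgroupOf G₁) ⟨g, hg⟩ := by
  intro T hT
  let p : V →ₗ[E] V₁ := V₁.projectionOnto V₂ hc
  have hpv : ∀ v, (p v : V) = V₁.projection V₂ hc v := fun v => rfl
  have hcom := proj_com h1 h2 hc
  have hcom' : ∀ g (hg : g ∈ G₁), ∀ v, p (r g v) = sub r G₁ V₁ h1 ⟨g, hg⟩ (p v) := by
    intro g hg v
    apply Subtype.ext
    rw [sub_apply, hpv, hpv]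
    exact LinearMap.congr_fun (hcom g hg) v
  have hpi : ∀ v : V₁, p v.1 = v := fun v => Submodule.projectionOnto_apply_left hc v
  let T' : Module.End E V := V₁.subtype ∘ₗ T ∘ₗ p
  have hT' : ∀ v, T' v = (T (p v) : V) := fun v => rfl
  have h3 : Com r N T' := by
    intro n hn
    ext v
    show T' (r n v) = r n (T' v)
    rw [hT', hT', hcom' n (hNG hn)]
    have := LinearMap.congr_fun (hT ⟨n, hNG hn⟩ (Subgroup.mem_subgroupOf.2 hn)) (p v)
    exact congrArg Subtype.val this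
  have h4 := ht T' h3
  ext v
  have h5 := LinearMap.congr_fun h4 v.1
  have h6 : T' (r g v.1) = r g (T' v.1) := h5
  rw [hT', hT', hcom' g hg, hpi] at h6
  exact h6

/-- the bound -/
def IB : ℕ → ℕ
  | 0 => 1
  | d + 1 => cB (d + 1) * (IB d * IB d)

theorem IB_pos : ∀ d, 0 < IB d
  | 0 => one_pos
  | d + 1 => by
    have h1 : 0 < cB (d + 1) := by unfold cB; positivity
    have h2 := IB_pos d
    exact Nat.mul_pos h1 (Nat.mul_pos h2 h2)

theorem cB_mono {a b : ℕ} (h : a ≤ b) : cB a ≤ cB b := by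
  unfold cB
  have : a * a * (a * a) ≤ b * b * (b * b) := Nat.mul_le_mul (Nat.mul_le_mul h h) (Nat.mul_le_mul h h)
  exact Nat.mul_le_mul h (Nat.pow_le_pow_right (by norm_num) (Nat.mul_le_mul le_rfl this))

end

theorem ind (E : Type) [Field E] [CharZero E] [IsAlgClosed E] : ∀ (d : ℕ) (V : Type) [AddCommGroup V] [Module E V]
    [FiniteDimensional E V] (hd : finrank E V ≤ d) (G : Type) [Group G] (r : G →* Module.End E V) (N : Subgroup G)
    [N.Normal] [N.FiniteIndex] (hN : SS r N), ∃ Gf : Subgroup G, N ≤ Gf ∧ Gf.index ≤ IB d ∧ Gf.index ≠ 0 ∧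
      (∀ g, Triv r N g → g ∈ Gf) ∧ ∀ H, N ≤ H → H ≤ Gf → ∀ W, Irr r H W → Irr r N W := by
  intro d
  induction d with
  | zero =>
    intro V _ _ _ hd G _ r N _ _ hN
    have hs : Subsingleton V := Module.finrank_zero_iff.1 (Nat.le_zero.1 hd)
    refine ⟨⊤, le_top, ?_, ?_, fun _ _ => trivial, fun H _ _ W hW => ?_⟩
    · rw [Subgroup.index_top]; exact le_rfl
    · rw [Subgroup.index_top]; exact one_ne_zero
    · exact absurd (Subsingleton.elim _ _) hW.1
  | succ d ih =>
    intro V _ _ _ hd G _ r N _ _ hN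
    by_cases hred : ∃ W₀, Stab r N W₀ ∧ W₀ ≠ ⊥ ∧ W₀ ≠ ⊤
    · obtain ⟨W₀, ha, hb, hc⟩ := hred
      obtain ⟨G₁, hNG, hi, hi0, htr, V₁, hV₁, hV₁b, hV₁t⟩ := step hN ha hb hc
      obtain ⟨V₂, hV₂, hcV⟩ := maschke hN hNG V₁ hV₁
      have hdim := Submodule.finrank_add_eq_of_isCompl hcV
      have hpos₁ : 0 < finrank E V₁ := by
        rw [Module.finrank_pos_iff, Submodule.nontrivial_iff_ne_bot]
        exact hV₁b
      have hpos₂ : 0 < finrank E V₂ := by
        rw [Module.finrank_pos_iff, Submodule.nontrivial_iff_ne_bot]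
        rintro rfl
        apply hV₁t
        have := hcV.sup_eq_top
        rwa [sup_bot_eq] at this
      haveI : (N.subgroupOf G₁).Normal := inferInstance
      haveI : (N.subgroupOf G₁).FiniteIndex := inferInstance
      obtain ⟨A, hA1, hA2, hA3, hA4, hA5⟩ := ih V₁ (by omega) G₁ (sub r G₁ V₁ hV₁) (N.subgroupOf G₁)
        (ss_sub hNG hV₁ hN)
      obtain ⟨B, hB1, hB2, hB3, hB4, hB5⟩ := ih V₂ (by omega) G₁ (sub r G₁ V₂ hV₂) (N.subgroupOf G₁)
        (ss_sub hNG hV₂ hN)
      have hindex : ((A ⊓ B).map G₁.subtype).index = (A ⊓ B).index * G₁.index := Subgroup.index_map_subtype _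
      refine ⟨(A ⊓ B).map G₁.subtype, fun g hg => ?_, ?_, ?_, fun g hg => ?_, fun H hNH hHG W hW => ?_⟩
      · exact ⟨⟨g, hNG hg⟩, ⟨hA1 (Subgroup.mem_subgroupOf.2 hg), hB1 (Subgroup.mem_subgroupOf.2 hg)⟩, rfl⟩
      · rw [hindex]
        calc (A ⊓ B).index * G₁.index ≤ (A.index * B.index) * cB (d + 1) :=
              Nat.mul_le_mul Subgroup.index_inf_le (hi.trans (cB_mono hd))
          _ ≤ (IB d * IB d) * cB (d + 1) := Nat.mul_le_mul (Nat.mul_le_mul hA2 hB2) le_rfl
          _ = IB (d + 1) := by rw [mul_comm]; rfl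
      · rw [hindex]
        exact mul_ne_zero (Subgroup.index_inf_ne_zero hA3 hB3) hi0
      · exact ⟨⟨g, htr g hg⟩, ⟨hA4 _ (triv_sub hNG hV₁ hV₂ hcV (htr g hg) hg),
          hB4 _ (triv_sub hNG hV₂ hV₁ hcV.symm (htr g hg) hg)⟩, rfl⟩
      · have hHG₁ : H ≤ G₁ := by
          intro g hg
          obtain ⟨a, -, rfl⟩ := hHG hg
          exact a.2
        have hsubA : H.subgroupOf G₁ ≤ A := by
          intro g hg
          obtain ⟨a, ha', hae⟩ := hHG (Subgroup.mem_subgroupOf.1 hg)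
          have : a = g := Subtype.ext hae
          rw [← this]
          exact ha'.1
        have hsubB : H.subgroupOf G₁ ≤ B := by
          intro g hg
          obtain ⟨a, ha', hae⟩ := hHG (Subgroup.mem_subgroupOf.1 hg)
          have : a = g := Subtype.ext hae
          rw [← this]
          exact ha'.2
        have hsubN : N.subgroupOf G₁ ≤ H.subgroupOf G₁ := fun g hg =>
          Subgroup.mem_subgroupOf.2 (hNH (Subgroup.mem_subgroupOf.1 hg))
        by_cases hp : ∃ w ∈ W, V₁.projection V₂ hcV w ≠ 0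
        · exact irr_proj hV₁ hV₂ hcV hNH hHG₁ (fun W' hW' => hA5 _ hsubN hsubA W' hW') hW hp
        · push Not at hp
          refine irr_proj hV₂ hV₁ hcV.symm hNH hHG₁ (fun W' hW' => hB5 _ hsubN hsubB W' hW') hW ?_
          obtain ⟨w, hw, hw0⟩ := (Submodule.ne_bot_iff _).1 hW.1
          refine ⟨w, hw, fun h => hw0 ?_⟩
          rw [← Submodule.projection_add_projection_eq_self hcV w, hp w hw, h, add_zero]
    · push Not at hred
      refine ⟨⊤, le_top, ?_, ?_, fun _ _ => trivial, fun H hNH _ W hW => ?_⟩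
      · rw [Subgroup.index_top]; exact IB_pos _
      · rw [Subgroup.index_top]; exact one_ne_zero
      · have hWt : W = ⊤ := hred W (fun g hg => hW.2.1 g (hNH hg)) hW.1
        refine ⟨hW.1, fun g hg => hW.2.1 g (hNH hg), fun W' _ hW' => ?_⟩
        by_cases h0 : W' = ⊥
        · exact Or.inl h0
        · right
          rw [hred W' hW' h0, hWt]

end Pool.Agent.X289.SI
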