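import Pool.Agent.X289.PA.Jor
import Pool.Agent.Helper561.FomJordan

/-! Jordan's theorem, index form, over algebraically closed fields of characteristic zero. -/

set_option autoImplicit false
set_option linter.all false

namespace Pool.Agent.X289.SI

open Polynomial Matrix Module

/-- finite order -/
theorem exists_pow_one {E : Type} [Field E] {n : ℕ} {G : Type} [Group G] (M : G →* Matrix (Fin n) (Fin n) E)
    (hM : (Set.range M).Finite) (c : G) : ∃ N : ℕ, 0 < N ∧ M c ^ N = 1 := by
  have hni : ¬ Function.Injective fun j : ℕ => M (c ^ j) := by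
    intro hinj
    haveI := hM.to_subtype
    have : Function.Injective fun j : ℕ => (⟨M (c ^ j), _, rfl⟩ : Set.range M) := by
      intro a b hab
      exact hinj (congrArg Subtype.val hab)
    exact not_injective_infinite_finite _ this
  simp only [Function.Injective, not_forall] at hni
  obtain ⟨a, b, hab, hne⟩ := hni
  have key : ∀ a b : ℕ, a < b → M (c ^ a) = M (c ^ b) → ∃ N : ℕ, 0 < N ∧ M c ^ N = 1 := by
    intro a b hlt hab
    refine ⟨b - a, Nat.sub_pos_of_lt hlt, ?_⟩
    have e1 : M (c ^ b) = M (c ^ (b - a)) * M (c ^ a) := by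
      rw [← map_mul, ← pow_add, Nat.sub_add_cancel hlt.le]
    have e2 : M (c ^ a) * M (c ^ a)⁻¹ = 1 := by rw [← map_mul, mul_inv_cancel, map_one]
    rw [← map_pow]
    calc M (c ^ (b - a)) = M (c ^ (b - a)) * (M (c ^ a) * M (c ^ a)⁻¹) := by rw [e2, mul_one]
      _ = 1 := by rw [← mul_assoc, ← e1, ← hab, e2]
  rcases Nat.lt_or_gt_of_ne hne with h | h
  · exact key a b h hab
  · exact key b a h hab.symm

/-- transfer to the complex numbers with the same kernel -/
theorem transfer_iff {E : Type} [Field E] [CharZero E] [IsAlgClosed E] {n : ℕ} {G : Type} [Group G]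
    (M : G →* Matrix (Fin n) (Fin n) E) (hM : (Set.range M).Finite) :
    ∃ M' : G →* Matrix (Fin n) (Fin n) ℂ, (Set.range M').Finite ∧ ∀ g, M g = 1 ↔ M' g = 1 := by
  have : Algebra.IsAlgebraic ℚ (algebraicClosure ℚ E) := algebraicClosure.isAlgebraic ℚ E
  letI : Algebra (algebraicClosure ℚ E) ℂ :=
    (IsAlgClosed.lift (R := ℚ) (S := algebraicClosure ℚ E) (M := ℂ)).toRingHom.toAlgebra
  obtain ⟨M', h1, h2⟩ := Pool.Agent.X320.DS.transfer (E := algebraicClosure ℚ E) (F := E) (Ω := ℂ) M hM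
  refine ⟨M', ?_, fun c => ⟨h1 c, fun hc1 => ?_⟩⟩
  · have hkey : ∀ g h : G, M g = M h → M' g = M' h := by
      intro g h hgh
      have e1 : M (g * h⁻¹) = 1 := by
        rw [map_mul, hgh, ← map_mul, mul_inv_cancel, map_one]
      have e2 := h1 _ e1
      have e3 : M' g = M' (g * h⁻¹) * M' h := by rw [← map_mul, inv_mul_cancel_right]
      rw [e3, e2, one_mul]
    choose s hs using fun A : Set.range M => A.2
    haveI := hM.to_subtype
    refine (Set.finite_range fun A : Set.range M => M' (s A)).subset ?_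
    rintro _ ⟨g, rfl⟩
    exact ⟨⟨M g, g, rfl⟩, hkey _ _ (hs ⟨M g, g, rfl⟩)⟩
  · obtain ⟨N, hN, hcN⟩ := exists_pow_one M hM c
    obtain ⟨P, hP⟩ := Pool.Agent.X289.PA.charpoly_lift (M c) N hN hcN
    have h4 := h2 c P hP
    rw [hc1] at h4
    have hone : ∀ (R : Type) [Field R], (1 : Matrix (Fin n) (Fin n) R).charpoly = (X - 1) ^ n := by
      intro R _
      rw [Matrix.charpoly_one, Fintype.card_fin]
    have h5 : P = (X - 1) ^ n := by
      apply Polynomial.map_injective (algebraMap (algebraicClosure ℚ E) ℂ)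
        (algebraMap (algebraicClosure ℚ E) ℂ).injective
      rw [← h4, hone, Polynomial.map_pow, Polynomial.map_sub, Polynomial.map_X, Polynomial.map_one]
    refine Pool.Agent.Y800.eq_one_of_charpoly (M c) N hN hcN ?_
    rw [hP, h5, hone, Polynomial.map_pow, Polynomial.map_sub, Polynomial.map_X, Polynomial.map_one]

theorem jordan_index {E : Type} [Field E] [CharZero E] [IsAlgClosed E] {m : ℕ} {G : Type} [Group G]
    (M : G →* Matrix (Fin m) (Fin m) E) (hM : (Set.range M).Finite) :
    ∃ A : Subgroup G, (∀ a ∈ A, ∀ b ∈ A, M (a * b) = M (b * a)) ∧ A.index ≤ 5 ^ (2 * (m * m)) ∧ A.index ≠ 0 ∧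
      ∀ g, M g = 1 → g ∈ A := by
  obtain ⟨M', hf, hiff⟩ := transfer_iff M hM
  have hinvM : ∀ g, M g * M g⁻¹ = 1 := fun g => by rw [← map_mul, mul_inv_cancel, map_one]
  let Q := G ⧸ M'.ker
  let φ : Q →* Matrix (Fin m) (Fin m) ℂ := QuotientGroup.lift M'.ker M' (fun g hg => hg)
  have hφ : ∀ g : G, φ (g : Q) = M' g := fun g => rfl
  have hinj : Function.Injective φ := by
    intro a b hab
    obtain ⟨g, rfl⟩ := QuotientGroup.mk_surjective a
    obtain ⟨h, rfl⟩ := QuotientGroup.mk_surjective b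
    rw [QuotientGroup.eq]
    show M' (g⁻¹ * h) = 1
    have h1 : M' g = M' h := hab
    rw [map_mul, ← h1, ← map_mul, inv_mul_cancel, map_one]
  haveI : Finite Q := by
    haveI := hf.to_subtype
    refine Finite.of_injective (fun q : Q => (⟨φ q, ?_⟩ : Set.range M')) ?_
    · obtain ⟨g, rfl⟩ := QuotientGroup.mk_surjective q
      exact ⟨g, rfl⟩
    · intro a b hab
      exact hinj (congrArg Subtype.val hab)
  let ψ : Q →* ((Fin m → ℂ) →ₗ[ℂ] (Fin m → ℂ)) :=
    ((Matrix.toLinAlgEquiv' (R := ℂ) (n := Fin m)).toAlgHom.toRingHom.toMonoidHom).comp φ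
  have hψ : Function.Injective ψ := (Matrix.toLinAlgEquiv' (R := ℂ) (n := Fin m)).injective.comp hinj
  obtain ⟨A, hA, hi⟩ := Pool.Agent.Helper561.FOM.jordan_linear ψ hψ
  rw [Module.finrank_fin_fun] at hi
  refine ⟨A.comap (QuotientGroup.mk' M'.ker), fun a ha b hb => ?_, ?_, ?_, fun g hg => ?_⟩
  · have h1 : ((a : Q) * (b : Q)) = (b : Q) * (a : Q) := hA _ ha _ hb
    have h2 : M' (a * b * (b * a)⁻¹) = 1 := by
      have h3 : M' (a * b) = M' (b * a) := by
        rw [← hφ, ← hφ]
        exact congrArg φ h1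
      rw [map_mul, h3, ← map_mul, mul_inv_cancel, map_one]
    have h4 := (hiff _).2 h2
    have h5 : M (a * b) = M (a * b * (b * a)⁻¹) * M (b * a) := by rw [← map_mul, inv_mul_cancel_right]
    rw [h5, h4, one_mul]
  · rw [Subgroup.index_comap_of_surjective _ (QuotientGroup.mk'_surjective _)]
    exact hi
  · rw [Subgroup.index_comap_of_surjective _ (QuotientGroup.mk'_surjective _)]
    exact Subgroup.FiniteIndex.index_ne_zero
  · show (g : Q) ∈ A
    have : (g : Q) = 1 := (QuotientGroup.eq_one_iff g).2 ((hiff g).1 hg)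
    rw [this]
    exact A.one_mem

end Pool.Agent.X289.SI
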