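import Pool.Agent.X289.SI.Jor

/-! One step: a representation that is semisimple over a normal subgroup `N` of finite index and reducible over `N`
becomes reducible over a subgroup of bounded index. -/

set_option autoImplicit false
set_option linter.all false

namespace Pool.Agent.X289.SI

open Polynomial Matrix Module

section

variable {E : Type} [Field E] {V : Type} [AddCommGroup V] [Module E V] {G : Type} [Group G]

/-- stable under the elements of `H` -/
def Stab (r : G →* Module.End E V) (H : Subgroup G) (W : Submodule E V) : Prop := ∀ h ∈ H, ∀ v ∈ W, r h v ∈ W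

/-- irreducible under `H` -/
def Irr (r : G →* Module.End E V) (H : Subgroup G) (W : Submodule E V) : Prop :=
  W ≠ ⊥ ∧ Stab r H W ∧ ∀ W' ≤ W, Stab r H W' → W' = ⊥ ∨ W' = W

/-- semisimple under `H` -/
def SS (r : G →* Module.End E V) (H : Subgroup G) : Prop :=
  ∀ W, Stab r H W → ∃ W', Stab r H W' ∧ IsCompl W W'

/-- commutes with the elements of `N` -/
def Com (r : G →* Module.End E V) (N : Subgroup G) (T : Module.End E V) : Prop := ∀ n ∈ N, T * r n = r n * T

/-- acts trivially on the commutant of `N` -/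
def Triv (r : G →* Module.End E V) (N : Subgroup G) (g : G) : Prop := ∀ T, Com r N T → T * r g = r g * T

theorem rinv (r : G →* Module.End E V) (g : G) : r g * r g⁻¹ = 1 := by rw [← map_mul, mul_inv_cancel, map_one]

theorem rinv' (r : G →* Module.End E V) (g : G) : r g⁻¹ * r g = 1 := by rw [← map_mul, inv_mul_cancel, map_one]

/-- the projection onto a stable subspace along a stable complement commutes with the group -/
theorem proj_com {r : G →* Module.End E V} {N : Subgroup G} {W W' : Submodule E V} (hW : Stab r N W)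
    (hW' : Stab r N W') (hc : IsCompl W W') : Com r N (W.projection W' hc) := by
  intro n hn
  ext v
  show W.projection W' hc (r n v) = r n (W.projection W' hc v)
  have h2 : r n v = r n (W.projection W' hc v) + r n (W'.projection W hc.symm v) := by
    rw [← map_add, Submodule.projection_add_projection_eq_self hc v]
  rw [h2, map_add, Submodule.projection_apply_of_mem_left hc (hW n hn _ (Submodule.projection_apply_mem hc v)),
    Submodule.projection_apply_of_mem_right hc (hW' n hn _ (Submodule.projection_apply_mem hc.symm v)), add_zero]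

/-- **Maschke's theorem**, relative form -/
theorem maschke [CharZero E] {r : G →* Module.End E V} {N : Subgroup G} [N.FiniteIndex] (hN : SS r N)
    {H : Subgroup G} (hNH : N ≤ H) : SS r H := by
  intro W hW
  obtain ⟨W', hW', hc⟩ := hN W fun n hn => hW n (hNH hn)
  let π := W.projection W' hc
  have hπ : Com r N π := proj_com (fun n hn => hW n (hNH hn)) hW' hc
  let K : Subgroup H := N.subgroupOf H
  have : Finite (H ⧸ K) := Subgroup.finite_quotient_of_finiteIndex
  cases nonempty_fintype (H ⧸ K)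
  let f : H ⧸ K → Module.End E V := fun q => Quotient.liftOn' q (fun h : H => r h.1 * π * r (h.1)⁻¹) (by
    intro a b hab
    rw [QuotientGroup.leftRel_apply] at hab
    have h1 : (a.1)⁻¹ * b.1 ∈ N := Subgroup.mem_subgroupOf.1 hab
    have h2 := hπ _ h1
    have hb : b.1 = a.1 * ((a.1)⁻¹ * b.1) := by group
    have hb' : (b.1)⁻¹ = ((a.1)⁻¹ * b.1)⁻¹ * (a.1)⁻¹ := by group
    show r a.1 * π * r (a.1)⁻¹ = r b.1 * π * r (b.1)⁻¹
    rw [hb', hb, map_mul r a.1, map_mul r _ (a.1)⁻¹]
    have h3 : r ((a.1)⁻¹ * b.1) * π * r ((a.1)⁻¹ * b.1)⁻¹ = π := by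
      rw [← h2, mul_assoc, rinv, mul_one]
    have h4 : (a.1)⁻¹ * (a.1 * ((a.1)⁻¹ * b.1)) = (a.1)⁻¹ * b.1 := by group
    rw [h4]
    calc r a.1 * π * r (a.1)⁻¹ = r a.1 * (r ((a.1)⁻¹ * b.1) * π * r ((a.1)⁻¹ * b.1)⁻¹) * r (a.1)⁻¹ := by rw [h3]
      _ = _ := by simp only [mul_assoc])
  have hf : ∀ h : H, f (QuotientGroup.mk h) = r h.1 * π * r (h.1)⁻¹ := fun h => rfl
  have hsmul : ∀ (g : H) (q : H ⧸ K), f (g • q) = r g.1 * f q * r (g.1)⁻¹ := by
    intro g q
    obtain ⟨h, rfl⟩ := QuotientGroup.mk_surjective q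
    rw [MulAction.Quotient.smul_mk, hf, hf]
    show r (g.1 * h.1) * π * r (g.1 * h.1)⁻¹ = _
    rw [_root_.mul_inv_rev, map_mul, map_mul]
    simp only [mul_assoc]
  have hsum : ∀ g : H, r g.1 * (∑ q, f q) * r (g.1)⁻¹ = ∑ q, f q := by
    intro g
    rw [Finset.mul_sum, Finset.sum_mul]
    rw [← Equiv.sum_comp (MulAction.toPerm g) f]
    exact Finset.sum_congr rfl fun q _ => (hsmul g q).symm
  have hfix : ∀ q, ∀ w ∈ W, f q w = w := by
    intro q w hw
    obtain ⟨h, rfl⟩ := QuotientGroup.mk_surjective q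
    rw [hf]
    show r h.1 (π (r (h.1)⁻¹ w)) = w
    have h1 : π (r (h.1)⁻¹ w) = r (h.1)⁻¹ w :=
      Submodule.projection_apply_of_mem_left hc (hW _ (H.inv_mem h.2) w hw)
    rw [h1]
    exact LinearMap.congr_fun (rinv r h.1) w
  have hmem : ∀ q v, f q v ∈ W := by
    intro q v
    obtain ⟨h, rfl⟩ := QuotientGroup.mk_surjective q
    rw [hf]
    exact hW _ h.2 _ (Submodule.projection_apply_mem hc _)
  let c : E := (Fintype.card (H ⧸ K) : E)
  have hc0 : c ≠ 0 := Nat.cast_ne_zero.2 Fintype.card_ne_zero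
  let p : Module.End E V := c⁻¹ • ∑ q, f q
  have hp1 : ∀ w ∈ W, p w = w := by
    intro w hw
    show c⁻¹ • ((∑ q, f q) w) = w
    rw [LinearMap.sum_apply, Finset.sum_congr rfl fun q _ => hfix q w hw, Finset.sum_const, Finset.card_univ,
      ← Nat.cast_smul_eq_nsmul E, smul_smul, inv_mul_cancel₀ hc0, one_smul]
  have hp2 : ∀ v, p v ∈ W := by
    intro v
    show c⁻¹ • ((∑ q, f q) v) ∈ W
    rw [LinearMap.sum_apply]
    exact W.smul_mem _ (W.sum_mem fun q _ => hmem q v)
  have hp3 : ∀ g ∈ H, ∀ v, p (r g v) = r g (p v) := by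
    intro g hg v
    have h1 := hsum ⟨g, hg⟩
    have h2 : (∑ q, f q) * r g = r g * ∑ q, f q := by
      conv_lhs => rw [← h1]
      show r g * (∑ q, f q) * r g⁻¹ * r g = _
      rw [mul_assoc, rinv', mul_one]
    show c⁻¹ • ((∑ q, f q) (r g v)) = r g (c⁻¹ • ((∑ q, f q) v))
    rw [map_smul]
    congr 1
    exact LinearMap.congr_fun h2 v
  refine ⟨LinearMap.ker p, fun g hg v hv => ?_, ?_⟩
  · rw [LinearMap.mem_ker] at hv ⊢
    rw [hp3 g hg, hv, map_zero]
  · constructor
    · rw [Submodule.disjoint_def]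
      intro v h1 h2
      rw [← hp1 v h1]
      exact LinearMap.mem_ker.1 h2
    · rw [codisjoint_iff, eq_top_iff]
      intro v _
      refine Submodule.mem_sup.2 ⟨p v, hp2 v, v - p v, ?_, by abel⟩
      rw [LinearMap.mem_ker, map_sub, hp1 _ (hp2 v), sub_self]

/-- commuting operators have a common eigenvector -/
theorem common_eigen [IsAlgClosed E] {X : Type} [AddCommGroup X] [Module E X] [FiniteDimensional E X] [Nontrivial X]
    {ι : Type} (c : ι → Module.End E X) (hc : ∀ i j, c i * c j = c j * c i) :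
    ∃ x : X, x ≠ 0 ∧ ∀ i, ∃ μ : E, c i x = μ • x := by
  obtain ⟨Y, ⟨h1, h2⟩, h3⟩ := (wellFounded_lt (α := Submodule E X)).has_min
    {Y | Y ≠ ⊥ ∧ ∀ i, ∀ y ∈ Y, c i y ∈ Y} ⟨⊤, top_ne_bot, fun _ _ _ => trivial⟩
  obtain ⟨x, hx, hx0⟩ := (Submodule.ne_bot_iff _).1 h1
  refine ⟨x, hx0, fun i => ?_⟩
  haveI : Nontrivial Y := ⟨⟨x, hx⟩, 0, fun h => hx0 (congrArg Subtype.val h)⟩
  obtain ⟨μ, hμ⟩ := Module.End.exists_eigenvalue ((c i).restrict (h2 i))
  obtain ⟨y, hy⟩ := hμ.exists_hasEigenvector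
  refine ⟨μ, ?_⟩
  let Z : Submodule E X := Y ⊓ LinearMap.ker (c i - μ • (1 : Module.End E X))
  have hZ : ∀ z, z ∈ Z ↔ z ∈ Y ∧ c i z = μ • z := by
    intro z
    rw [Submodule.mem_inf, LinearMap.mem_ker, LinearMap.sub_apply, sub_eq_zero]
    rfl
  have hyZ : (y : X) ∈ Z := by
    rw [hZ]
    refine ⟨y.2, ?_⟩
    have := hy.apply_eq_smul
    exact congrArg Subtype.val this
  have hZ0 : Z ≠ ⊥ := by
    intro h
    rw [h, Submodule.mem_bot] at hyZ
    exact hy.2 (Subtype.ext hyZ)
  have hZY : Z = Y := by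
    by_contra hne
    refine h3 Z ⟨hZ0, fun j z hz => ?_⟩ (lt_of_le_of_ne inf_le_left hne)
    rw [hZ] at hz ⊢
    refine ⟨h2 j z hz.1, ?_⟩
    have := LinearMap.congr_fun (hc i j) z
    show c i (c j z) = _
    rw [show c i (c j z) = c j (c i z) from this, hz.2, map_smul]
  exact ((hZ x).1 (hZY ▸ hx)).2

/-- trace zero elements of the commutant -/
noncomputable def X0 (r : G →* Module.End E V) (N : Subgroup G) : Submodule E (Module.End E V) where
  carrier := {T | Com r N T ∧ LinearMap.trace E V T = 0}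
  zero_mem' := ⟨fun n hn => by rw [zero_mul, mul_zero], map_zero _⟩
  add_mem' := fun {a b} ha hb => ⟨fun n hn => by rw [add_mul, mul_add, ha.1 n hn, hb.1 n hn], by
    rw [map_add, ha.2, hb.2, add_zero]⟩
  smul_mem' := fun c a ha => ⟨fun n hn => by rw [smul_mul_assoc, mul_smul_comm, ha.1 n hn], by
    rw [map_smul, ha.2, smul_zero]⟩

theorem mem_X0 {r : G →* Module.End E V} {N : Subgroup G} {T : Module.End E V} :
    T ∈ X0 r N ↔ Com r N T ∧ LinearMap.trace E V T = 0 := Iff.rfl

theorem conj_com {r : G →* Module.End E V} {N : Subgroup G} [hN : N.Normal] {T : Module.End E V} (hT : Com r N T)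
    (g : G) : Com r N (r g * T * r g⁻¹) := by
  intro n hn
  have h1 : g⁻¹ * n * g ∈ N := by
    have := hN.conj_mem n hn g⁻¹
    rwa [inv_inv] at this
  have h2 := hT _ h1
  have h3 : r g⁻¹ * r n = r (g⁻¹ * n * g) * r g⁻¹ := by
    rw [← map_mul, ← map_mul]
    congr 1
    group
  have h4 : r g * r (g⁻¹ * n * g) = r n * r g := by
    rw [← map_mul, ← map_mul]
    congr 1
    group
  calc r g * T * r g⁻¹ * r n = r g * (T * (r g⁻¹ * r n)) := by simp only [mul_assoc (r g), mul_assoc T]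
    _ = r g * (T * r (g⁻¹ * n * g)) * r g⁻¹ := by rw [h3, ← mul_assoc T, ← mul_assoc (r g)]
    _ = r g * r (g⁻¹ * n * g) * T * r g⁻¹ := by rw [h2, ← mul_assoc (r g)]
    _ = r n * (r g * T * r g⁻¹) := by rw [h4]; simp only [mul_assoc]

theorem conj_mem {r : G →* Module.End E V} {N : Subgroup G} [hN : N.Normal] (g : G) {T : Module.End E V}
    (hT : T ∈ X0 r N) : r g * T * r g⁻¹ ∈ X0 r N := by
  refine ⟨conj_com hT.1 g, ?_⟩
  rw [LinearMap.trace_mul_comm, ← mul_assoc, rinv', one_mul]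
  exact hT.2

/-- the action by conjugation -/
noncomputable def cj (r : G →* Module.End E V) (N : Subgroup G) [N.Normal] : G →* Module.End E (X0 r N) where
  toFun g := (LinearMap.mulLeft E (r g) ∘ₗ LinearMap.mulRight E (r g⁻¹)).restrict (p := X0 r N) (q := X0 r N)
    fun T hT => by
      show r g * (T * r g⁻¹) ∈ X0 r N
      rw [← mul_assoc]
      exact conj_mem g hT
  map_one' := by
    ext T : 1
    apply Subtype.ext
    show r 1 * (T.1 * r 1⁻¹) = T.1
    rw [inv_one, map_one, one_mul, mul_one]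
  map_mul' a b := by
    ext T : 1
    apply Subtype.ext
    show r (a * b) * (T.1 * r (a * b)⁻¹) = r a * ((r b * (T.1 * r b⁻¹)) * r a⁻¹)
    rw [_root_.mul_inv_rev, map_mul, map_mul]
    simp only [mul_assoc]

theorem cj_apply (r : G →* Module.End E V) (N : Subgroup G) [N.Normal] (g : G) (T : X0 r N) :
    (cj r N g T : Module.End E V) = r g * T.1 * r g⁻¹ := by
  show r g * (T.1 * r g⁻¹) = _
  rw [mul_assoc]

theorem cj_triv {r : G →* Module.End E V} {N : Subgroup G} [N.Normal] {g : G} (hg : Triv r N g) : cj r N g = 1 := by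
  ext T : 1
  apply Subtype.ext
  rw [cj_apply, ← hg T.1 T.2.1, mul_assoc, rinv, mul_one]
  rfl

theorem triv_of_mem {r : G →* Module.End E V} {N : Subgroup G} {g : G} (hg : g ∈ N) : Triv r N g :=
  fun T hT => hT g hg

/-- the bound in one step -/
def cB (d : ℕ) : ℕ := d * 5 ^ (2 * (d * d * (d * d)))

theorem step [CharZero E] [IsAlgClosed E] [FiniteDimensional E V] {r : G →* Module.End E V} {N : Subgroup G}
    [N.Normal] [N.FiniteIndex] (hN : SS r N) {W₀ : Submodule E V} (hW₀ : Stab r N W₀) (h0 : W₀ ≠ ⊥) (h1 : W₀ ≠ ⊤) :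
    ∃ G₁ : Subgroup G, N ≤ G₁ ∧ G₁.index ≤ cB (finrank E V) ∧ G₁.index ≠ 0 ∧ (∀ g, Triv r N g → g ∈ G₁) ∧
      ∃ W, Stab r G₁ W ∧ W ≠ ⊥ ∧ W ≠ ⊤ := by
  set d := finrank E V with hd
  have hVnt : Nontrivial V := by
    obtain ⟨x, hx, hx0⟩ := (Submodule.ne_bot_iff _).1 h0
    exact ⟨x, 0, hx0⟩
  have hd0 : (d : E) ≠ 0 := Nat.cast_ne_zero.2 (Module.finrank_pos (R := E) (M := V)).ne'
  have hdpos : 0 < d := Module.finrank_pos (R := E) (M := V)
  -- the commutant has a nonzero element of trace zero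
  obtain ⟨W', hW', hc⟩ := hN W₀ hW₀
  let π := W₀.projection W' hc
  have hπ : Com r N π := proj_com hW₀ hW' hc
  let T₀ : Module.End E V := π - ((LinearMap.trace E V π) / d) • (1 : Module.End E V)
  have hT₀ : T₀ ∈ X0 r N := by
    refine ⟨fun n hn => ?_, ?_⟩
    · show (π - _ • 1) * r n = r n * (π - _ • 1)
      rw [sub_mul, mul_sub, hπ n hn, smul_mul_assoc, one_mul, mul_smul_comm, mul_one]
    · show LinearMap.trace E V (π - _ • 1) = 0
      rw [map_sub, map_smul, LinearMap.trace_one, smul_eq_mul, div_mul_cancel₀ _ hd0, sub_self]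
  have hT₀0 : T₀ ≠ 0 := by
    intro h
    have h2 : ∀ v, π v = ((LinearMap.trace E V π) / d) • v := by
      intro v
      have := LinearMap.congr_fun h v
      rw [LinearMap.zero_apply] at this
      exact sub_eq_zero.1 this
    obtain ⟨x, hx, hx0⟩ := (Submodule.ne_bot_iff _).1 h0
    obtain ⟨y, hy⟩ : ∃ y, y ∉ W₀ := by
      by_contra hcon
      push Not at hcon
      exact h1 (eq_top_iff.2 fun v _ => hcon v)
    have h3 : π x = x := Submodule.projection_apply_of_mem_left hc hx
    have h4 : π y ∈ W₀ := Submodule.projection_apply_mem hc y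
    rw [h2] at h3 h4
    by_cases hcz : (LinearMap.trace E V π) / d = 0
    · rw [hcz, zero_smul] at h3
      exact hx0 h3.symm
    · apply hy
      have := W₀.smul_mem ((LinearMap.trace E V π) / d)⁻¹ h4
      rwa [smul_smul, inv_mul_cancel₀ hcz, one_smul] at this
  haveI hnt : Nontrivial (X0 r N) := ⟨⟨T₀, hT₀⟩, 0, fun h => hT₀0 (congrArg Subtype.val h)⟩
  -- Jordan
  let m := finrank E (X0 r N)
  let b : Module.Basis (Fin m) E (X0 r N) := Module.finBasis E (X0 r N)
  let M : G →* Matrix (Fin m) (Fin m) E := ((LinearMap.toMatrixAlgEquiv b).toAlgHom.toRingHom.toMonoidHom).comp (cj r N)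
  have hM : ∀ g, M g = LinearMap.toMatrixAlgEquiv b (cj r N g) := fun g => rfl
  have hMone : ∀ g, cj r N g = 1 → M g = 1 := by
    intro g hg
    rw [hM, hg, map_one]
  have hfin : (Set.range M).Finite := by
    haveI : Finite (G ⧸ N) := Subgroup.finite_quotient_of_finiteIndex
    refine (Set.finite_range fun q : G ⧸ N => M q.out).subset ?_
    rintro _ ⟨g, rfl⟩
    refine ⟨(g : G ⧸ N), ?_⟩
    show M ((g : G ⧸ N)).out = M g
    have h2 : ((g : G ⧸ N).out)⁻¹ * g ∈ N := QuotientGroup.eq.1 (QuotientGroup.out_eq' _)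
    have h3 := hMone _ (cj_triv (triv_of_mem (r := r) h2))
    have h4 : M g = M ((g : G ⧸ N).out) * M (((g : G ⧸ N).out)⁻¹ * g) := by rw [← map_mul, mul_inv_cancel_left]
    rw [h4, h3, mul_one]
  obtain ⟨A, hA, hAi, hA0, hA1⟩ := jordan_index M hfin
  have hmd : m ≤ d * d := by
    calc m ≤ finrank E (Module.End E V) := Submodule.finrank_le _
      _ = d * d := Module.finrank_linearMap E E V V
  have hAi' : A.index ≤ 5 ^ (2 * (d * d * (d * d))) :=
    hAi.trans (Nat.pow_le_pow_right (by norm_num) (Nat.mul_le_mul le_rfl (Nat.mul_le_mul hmd hmd)))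
  have hAt : ∀ g, Triv r N g → g ∈ A := fun g hg => hA1 g (hMone g (cj_triv hg))
  have hNA : N ≤ A := fun g hg => hAt g (triv_of_mem hg)
  have hcomm : ∀ a ∈ A, ∀ b' ∈ A, cj r N a * cj r N b' = cj r N b' * cj r N a := by
    intro a ha b' hb'
    apply (LinearMap.toMatrixAlgEquiv b).injective
    have := hA a ha b' hb'
    rw [hM, hM, map_mul (cj r N), map_mul (cj r N)] at this
    exact this
  by_cases hred : ∃ W, Stab r A W ∧ W ≠ ⊥ ∧ W ≠ ⊤
  · refine ⟨A, hNA, hAi'.trans ?_, hA0, hAt, hred⟩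
    unfold cB
    exact Nat.le_mul_of_pos_left _ hdpos
  push Not at hred
  obtain ⟨T, hT0, hT⟩ := common_eigen (fun a : A => cj r N a.1) fun a b' => hcomm a.1 a.2 b'.1 b'.2
  have hTv : T.1 ≠ 0 := fun h => hT0 (Subtype.ext h)
  choose χ₀ hχ₀ using hT
  have hχc : ∀ a : A, r a.1 * T.1 * r (a.1)⁻¹ = χ₀ a • T.1 := by
    intro a
    rw [← cj_apply]
    exact congrArg Subtype.val (hχ₀ a)
  have huniq : ∀ x y : E, x • T = y • T → x = y := fun x y h => smul_left_injective E hT0 h
  let χ : A →* E :=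
    { toFun := χ₀
      map_one' := huniq _ _ (by
        rw [← hχ₀, one_smul]
        show cj r N 1 T = T
        rw [map_one]
        rfl)
      map_mul' := fun a b' => huniq _ _ (by
        rw [← hχ₀]
        show cj r N (a.1 * b'.1) T = _
        rw [map_mul]
        show cj r N a.1 (cj r N b'.1 T) = _
        rw [hχ₀ b', map_smul, hχ₀ a, smul_smul, mul_comm]) }
  have hχ : ∀ a : A, r a.1 * T.1 = χ a • (T.1 * r a.1) := by
    intro a
    have h2 := hχc a
    calc r a.1 * T.1 = (r a.1 * T.1 * r (a.1)⁻¹) * r a.1 := by rw [mul_assoc, rinv', mul_one]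
      _ = _ := by rw [h2, smul_mul_assoc]; rfl
  have hχ0 : ∀ a : A, χ a ≠ 0 := by
    intro a h
    have h2 := hχc a
    rw [show χ₀ a = 0 from h, zero_smul] at h2
    apply hTv
    calc T.1 = r (a.1)⁻¹ * (r a.1 * T.1 * r (a.1)⁻¹) * r a.1 := by
          rw [← mul_assoc, ← mul_assoc, rinv', one_mul, mul_assoc, rinv', mul_one]
      _ = 0 := by rw [h2, mul_zero, zero_mul]
  have hker : LinearMap.ker T.1 = ⊥ := by
    by_contra hk
    have h2 : Stab r A (LinearMap.ker T.1) := by
      intro a ha v hv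
      rw [LinearMap.mem_ker] at hv ⊢
      have h3 := LinearMap.congr_fun (hχ ⟨a, ha⟩) v
      rw [show (r a * T.1) v = r a (T.1 v) from rfl, hv, map_zero] at h3
      have h4 : χ ⟨a, ha⟩ • T.1 (r a v) = 0 := h3.symm
      exact (smul_eq_zero.1 h4).resolve_left (hχ0 _)
    have h3 := hred _ h2 hk
    exact hTv (LinearMap.ker_eq_top.1 h3)
  have hdet : LinearMap.det T.1 ≠ 0 := by
    intro h
    have := LinearMap.bot_lt_ker_of_det_eq_zero h
    rw [hker] at this
    exact lt_irrefl _ this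
  have hpow : ∀ a : A, χ a ^ d = 1 := by
    intro a
    have h2 := congrArg LinearMap.det (hχc a)
    rw [map_mul, map_mul, LinearMap.det_smul, mul_right_comm, ← map_mul, rinv, map_one, one_mul] at h2
    have h3 : (χ₀ a ^ d - 1) * LinearMap.det T.1 = 0 := by
      rw [sub_mul, one_mul, ← hd] at *
      rw [← h2, sub_self]
    exact sub_eq_zero.1 ((mul_eq_zero.1 h3).resolve_right hdet)
  let χu : A →* Eˣ := χ.toHomUnits
  have hχu : ∀ a, (χu a : E) = χ a := fun a => rfl
  let G₁ : Subgroup G := χu.ker.map A.subtype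
  have hG₁ : ∀ g, g ∈ G₁ ↔ ∃ h : g ∈ A, χ ⟨g, h⟩ = 1 := by
    intro g
    constructor
    · rintro ⟨a, ha, rfl⟩
      exact ⟨a.2, by
        have h2 : χu a = 1 := ha
        have := congrArg Units.val h2
        exact this⟩
    · rintro ⟨h, h2⟩
      exact ⟨⟨g, h⟩, Units.ext h2, rfl⟩
  have hindex : G₁.index = χu.ker.index * A.index := Subgroup.index_map_subtype _
  have hkerindex : χu.ker.index ≤ d ∧ χu.ker.index ≠ 0 := by
    rw [Subgroup.index_ker]
    haveI : NeZero d := ⟨hdpos.ne'⟩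
    have hle : χu.range ≤ rootsOfUnity d E := by
      rintro _ ⟨a, rfl⟩
      rw [mem_rootsOfUnity']
      rw [hχu]
      exact hpow a
    haveI : Finite (rootsOfUnity d E) := inferInstance
    haveI : Finite χu.range := Finite.of_injective _ (Subgroup.inclusion_injective hle)
    refine ⟨(Subgroup.card_le_of_le hle).trans ?_, Nat.card_pos.ne'⟩
    exact card_rootsOfUnity E d
  refine ⟨G₁, fun g hg => ?_, ?_, ?_, fun g hg => ?_, ?_⟩
  · rw [hG₁]
    refine ⟨hNA hg, huniq _ _ ?_⟩
    rw [one_smul]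
    refine (hχ₀ _).symm.trans ?_
    show cj r N g T = T
    rw [cj_triv (triv_of_mem hg)]
    rfl
  · rw [hindex]
    exact Nat.mul_le_mul hkerindex.1 hAi'
  · rw [hindex]
    exact mul_ne_zero hkerindex.2 hA0
  · rw [hG₁]
    refine ⟨hAt g hg, huniq _ _ ?_⟩
    rw [one_smul]
    refine (hχ₀ _).symm.trans ?_
    show cj r N g T = T
    rw [cj_triv hg]
    rfl
  · obtain ⟨μ, hμ⟩ := Module.End.exists_eigenvalue T.1
    refine ⟨LinearMap.ker (T.1 - μ • (1 : Module.End E V)), ?_, ?_, ?_⟩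
    · intro g hg v hv
      obtain ⟨hgA, hg1⟩ := (hG₁ g).1 hg
      rw [LinearMap.mem_ker, LinearMap.sub_apply, sub_eq_zero] at hv ⊢
      have hv' : T.1 v = μ • v := hv
      show T.1 (r g v) = μ • r g v
      have h2 := LinearMap.congr_fun (hχ ⟨g, hgA⟩) v
      rw [hg1, one_smul] at h2
      have h3 : r g (T.1 v) = T.1 (r g v) := h2
      rw [← h3, hv', map_smul]
    · obtain ⟨v, hv⟩ := hμ.exists_hasEigenvector
      rw [Submodule.ne_bot_iff]
      refine ⟨v, ?_, hv.2⟩
      rw [LinearMap.mem_ker, LinearMap.sub_apply, sub_eq_zero]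
      exact hv.apply_eq_smul
    · intro h
      have h2 : T.1 = μ • (1 : Module.End E V) := sub_eq_zero.1 (LinearMap.ker_eq_top.1 h)
      have h3 := T.2.2
      rw [h2, map_smul, LinearMap.trace_one, smul_eq_mul] at h3
      have h4 : μ = 0 := (mul_eq_zero.1 h3).resolve_right hd0
      rw [h4, zero_smul] at h2
      exact hTv h2

end

end Pool.Agent.X289.SI
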